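import Pool.Agent.Helper97.Ku.GoalsG

/-! Closure of the boldface class under the existential quantifier over the ground set. -/

namespace Pool.Agent.Helper97.Ku.PkPIE

universe u w

open Pool.Agent.Helper97.Ku

section

variable {Ω : Type u} [LinearOrder Ω] {L : Type w} [CompleteBooleanAlgebra L]

omit [LinearOrder Ω] in
theorem eqAt_self (x : FN Ω L) (i : Ω) : x.eqAt x i = ⊤ := by
  simp only [FN.eqAt, inf_idem]
  exact x.tot i

theorem eqv_self (α : Ω) (x : FN Ω L) : FN.eqv α x x = ⊤ := by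
  simp [FN.eqv, eqAt_self]

theorem eqf_le_eqv (α : Ω) (x y : FN Ω L) : x.eqf y ≤ FN.eqv α x y :=
  le_iInf fun i => le_iInf fun _ => iInf_le _ i

theorem eqv_mono {α α' : Ω} (h : α ≤ α') (x y : FN Ω L) : FN.eqv α' x y ≤ FN.eqv α x y :=
  le_iInf fun i => le_iInf fun hi =>
    iInf_le_of_le i (iInf_le_of_le (lt_of_lt_of_le hi h) le_rfl)

theorem eqv_dec (G : Grd Ω) (i α α' : Ω) (h : ∀ j, j < α → G.pi (i, j) < α') (x y : FN Ω L) :
    FN.eqv α' x y ≤ FN.eqv α (dec G i x) (dec G i y) := by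
  refine le_iInf fun j => le_iInf fun hj => ?_
  exact iInf_le_of_le (G.pi (i, j)) (iInf_le_of_le (h j hj) le_rfl)

theorem dec_cod (G : Grd Ω) (H : Ω → FN Ω L) (i : Ω) : dec G i (cod G H) = H i := by
  have h1 : (dec G i (cod G H)).v = (H i).v := by
    funext j k
    simp [dec, cod]
  cases hH : H i with
  | mk v tot fn =>
    cases hd : dec G i (cod G H) with
    | mk v' tot' fn' =>
      rw [hH, hd] at h1
      simp only at h1
      subst h1
      rfl

theorem ext_of_open {B : FN Ω L → (ℕ → FN Ω L) → L} (hB : OpenJ B) (e : ℕ → FN Ω L) :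
    FN.Ext (fun h => B h e) := by
  intro x y
  refine le_trans (inf_le_inf_left _ (hB x e)) ?_
  rw [inf_iSup_eq]
  refine iSup_le fun α => ?_
  have h1 : (⨅ h', ⨅ e' : ℕ → FN Ω L,
      ((FN.eqv α x h' ⊓ ⨅ k, FN.eqv α (e k) (e' k)) ⇨ B h' e')) ≤
      (FN.eqv α x y ⇨ B y e) := by
    refine le_trans (iInf₂_le y e) ?_
    simp [eqv_self]
  refine le_trans (inf_le_inf (eqf_le_eqv α x y) h1) ?_
  exact inf_himp_le

end

theorem pie : G_FNF.{u} → G_PIE.{u} := by
  intro hF Ω _ L _ G A hA
  choose B hB hAB using hA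
  have hne : Nonempty Ω := ⟨G.c0⟩
  refine ⟨fun h e => ⨆ i, B i (dec G i h) e, ?_, ?_⟩
  · intro h e
    refine iSup_le fun i => ?_
    refine le_trans (hB i (dec G i h) e) ?_
    refine iSup_le fun α => ?_
    obtain ⟨α', hα'⟩ := G.bd i α
    refine le_trans ?_ (le_iSup _ (max α α'))
    refine le_iInf fun h' => le_iInf fun e' => ?_
    refine le_trans (iInf₂_le (dec G i h') e') ?_
    refine himp_le_himp ?_ (le_iSup (fun i => B i (dec G i h') e') i)
    refine inf_le_inf ?_ ?_
    · exact eqv_dec G i α (max α α')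
        (fun j hj => lt_of_lt_of_le (hα' j hj) (le_max_right _ _)) h h'
    · exact iInf_mono fun k => eqv_mono (le_max_left _ _) _ _
  · intro e
    apply le_antisymm
    · refine iSup_le fun i => ?_
      rw [hAB]
      refine le_iInf fun h => ?_
      exact le_trans (iInf_le _ (dec G i h)) (le_iSup (fun i => B i (dec G i h) e) i)
    · have h1 : ∀ i, ∃ a, B i a e = ⨅ b, B i b e := fun i =>
        (hF Ω L (fun h => B i h e) (ext_of_open (hB i) e)).2
      choose H hH using h1
      refine le_trans (iInf_le _ (cod G H)) ?_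
      refine iSup_mono fun i => ?_
      rw [dec_cod, hH, hAB]

end Pool.Agent.Helper97.Ku.PkPIE
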